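import Mathlib
import Pool.Agent.H16.Star

set_option autoImplicit false

namespace Pool.Agent.Results.MP_45899d_co.Yes

open H16.Pseudo H16.Star

theorem result : ∃ D : Fin 7 → Fin 7 → Prop, (∀ u, ¬ D u u) ∧ (∀ u v, D u v → ¬ D v u) ∧
    Planar (SimpleGraph.fromRel D) ∧ IsLeast (Ratios D) 2 :=
  H16.Star.main

end Pool.Agent.Results.MP_45899d_co.Yes
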